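import Mathlib
import Pool.Agent.W219.SP.Dil

/-!
# Large sets of combinations of different elements of a set with coefficients in a sparse set
-/

set_option autoImplicit false

open scoped Pointwise

namespace Pool.Agent.V11208.MP

open Finset Pool.Agent.W219.SP

theorem exists_big (p : ℕ) [Fact p.Prime] (ε : ℝ) (hε : 0 < ε) (G B : Finset ℤ)
    (hG : G.Nonempty) (hB : B.Nonempty) (hG0 : (0 : ℤ) ∉ G)
    (hinj : ∀ g ∈ G, ∀ g' ∈ G, padicValInt p g = padicValInt p g' → g = g')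
    (m : ℕ) (hm : 1 ≤ m) (hcard : 2 / ε * Real.exp (6 / ε) * Real.log m ≤ G.card) :
    ∀ (k : ℕ), (k : ℝ) * ε ≤ 1 → ∀ S : Finset ℤ, k * m ≤ S.card →
      ∃ X : Finset ℤ, ((m : ℝ) ^ k * B.card) ^ (1 - k * ε) ≤ (X.card : ℝ) ∧
        ∀ x ∈ X, ∃ (σ r : Fin k → ℤ) (b : ℤ), Function.Injective σ ∧ (∀ i, σ i ∈ S) ∧
          (∀ i, r i ∈ G) ∧ b ∈ B ∧ ∑ i, σ i * r i + b = x := by
  classical
  have hb1 : (1 : ℝ) ≤ B.card := by exact_mod_cast hB.card_pos
  have hm1 : (1 : ℝ) ≤ m := by exact_mod_cast hm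
  intro k
  induction k with
  | zero =>
    intro _ S _
    refine ⟨B, by simp, fun x hx => ⟨Fin.elim0, Fin.elim0, x, fun i => Fin.elim0 i,
      fun i => Fin.elim0 i, fun i => Fin.elim0 i, hx, by simp⟩⟩
  | succ k ih =>
    intro hk S hS
    push_cast at hk
    have hk' : (k : ℝ) * ε ≤ 1 := by nlinarith
    obtain ⟨T, hTS, hT⟩ := exists_subset_card_eq (s := S) (n := m) (by nlinarith)
    have hSd : k * m ≤ (S \ T).card := by
      rw [card_sdiff_of_subset hTS, hT]
      have : (k + 1) * m = k * m + m := by ring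
      omega
    obtain ⟨X, hX1, hX2⟩ := ih hk' (S \ T) hSd
    have hXne : X.Nonempty := by
      rw [← card_pos]
      have h1 : (0 : ℝ) < ((m : ℝ) ^ k * B.card) ^ (1 - k * ε) := by positivity
      exact_mod_cast h1.trans_le hX1
    have hTne : T.Nonempty := by rw [← card_pos, hT]; omega
    obtain ⟨g, hg, hgX⟩ := dilates p ε hε T X G hTne hXne hG hG0 hinj (by
      refine le_trans (mul_le_mul_of_nonneg_left (min_le_left _ _) (by positivity)) ?_
      rw [hT]
      exact hcard)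
    refine ⟨dil g T + X, le_trans ?_ hgX, ?_⟩
    · rw [hT]
      have hε1 : 0 ≤ 1 - ε := by nlinarith [mul_nonneg (Nat.cast_nonneg (α := ℝ) k) hε.le]
      have h1 : (((m : ℝ) ^ (k + 1) * B.card) ^ (1 - k * ε)) ≤ (m : ℝ) * X.card := by
        have h2 : (m : ℝ) ^ (k + 1) * B.card = m * ((m : ℝ) ^ k * B.card) := by ring
        rw [h2, Real.mul_rpow (by positivity) (by positivity)]
        refine mul_le_mul ?_ hX1 (by positivity) (by positivity)
        calc (m : ℝ) ^ (1 - k * ε) ≤ (m : ℝ) ^ (1 : ℝ) :=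
              Real.rpow_le_rpow_of_exponent_le hm1 (by nlinarith [mul_nonneg (Nat.cast_nonneg (α := ℝ) k) hε.le])
          _ = m := Real.rpow_one _
      have h3 : 1 ≤ (m : ℝ) ^ (k + 1) * B.card :=
        one_le_mul_of_one_le_of_one_le (one_le_pow₀ hm1) hb1
      calc ((m : ℝ) ^ (k + 1) * B.card) ^ (1 - ((k + 1 : ℕ) : ℝ) * ε)
          ≤ ((m : ℝ) ^ (k + 1) * B.card) ^ ((1 - k * ε) * (1 - ε)) := by
            refine Real.rpow_le_rpow_of_exponent_le h3 ?_
            push_cast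
            nlinarith [mul_nonneg (mul_nonneg (Nat.cast_nonneg (α := ℝ) k) hε.le) hε.le]
        _ = (((m : ℝ) ^ (k + 1) * B.card) ^ (1 - k * ε)) ^ (1 - ε) := by
            rw [Real.rpow_mul (by positivity)]
        _ ≤ ((m : ℝ) * X.card) ^ (1 - ε) := Real.rpow_le_rpow (by positivity) h1 hε1
    · intro x hx
      obtain ⟨a, ha, x', hx', rfl⟩ := mem_add.1 hx
      obtain ⟨t, ht, rfl⟩ := mem_image.1 ha
      obtain ⟨σ, r, b, h1, h2, h3, h4, rfl⟩ := hX2 x' hx'
      refine ⟨Fin.cons t σ, Fin.cons g r, b, ?_, ?_, ?_, h4, ?_⟩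
      · rw [Fin.cons_injective_iff]
        refine ⟨?_, h1⟩
        rintro ⟨i, hi⟩
        exact (mem_sdiff.1 (h2 i)).2 (hi ▸ ht)
      · intro i
        refine Fin.cases ?_ (fun j => ?_) i
        · exact hTS ht
        · exact (mem_sdiff.1 (h2 j)).1
      · intro i
        refine Fin.cases ?_ (fun j => ?_) i
        · exact hg
        · exact h3 j
      · rw [Fin.sum_univ_succ]
        simp only [Fin.cons_zero, Fin.cons_succ]
        ring

end Pool.Agent.V11208.MP
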