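import Mathlib
import Pool.Agent.V1181.Smooth

/-!
# Random selections: the number of values of a function of `k` places and `k` choices
-/

set_option autoImplicit false

namespace Pool.Agent.V11208.MP

open Finset Pool.Agent.V1181

/-- The values `Φ σ (u ∘ σ) b` for the tuples `σ` of places and the parameters `b`. -/
def vals {ι α β γ : Type} [Fintype ι] [Fintype γ] [DecidableEq β] {k : ℕ}
    (Φ : (Fin k → ι) → (Fin k → α) → γ → β) (u : ι → α) : Finset β :=
  univ.image fun q : (Fin k → ι) × γ => Φ q.1 (fun i => u (q.1 i)) q.2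

theorem vals_update {ι α β γ : Type} [Fintype ι] [DecidableEq ι] [Fintype γ] [DecidableEq β] {k : ℕ}
    (Φ : (Fin (k + 1) → ι) → (Fin (k + 1) → α) → γ → β) (u : ι → α) (s : ι) (v : α) :
    (vals Φ (Function.update u s v)).card ≤
      (vals Φ u).card + (k + 1) * Fintype.card ι ^ k * Fintype.card γ := by
  classical
  have h1 : vals Φ (Function.update u s v) ⊆ vals Φ u ∪
      ((univ.filter fun σ : Fin (k + 1) → ι => ∃ i, σ i = s) ×ˢ (univ : Finset γ)).image fun q =>
        Φ q.1 (fun i => Function.update u s v (q.1 i)) q.2 := by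
    intro x hx
    obtain ⟨⟨σ, b⟩, -, hσ⟩ := mem_image.1 hx
    rw [mem_union]
    by_cases h : ∃ i, σ i = s
    · exact Or.inr (mem_image.2 ⟨(σ, b), mem_product.2 ⟨mem_filter.2 ⟨mem_univ _, h⟩,
        mem_univ _⟩, hσ⟩)
    · push Not at h
      refine Or.inl (mem_image.2 ⟨(σ, b), mem_univ _, ?_⟩)
      rw [← hσ]
      show Φ σ _ b = Φ σ _ b
      congr 1
      funext i
      rw [Function.update_of_ne (h i)]
  refine (card_le_card h1).trans ((card_union_le _ _).trans ?_)
  refine Nat.add_le_add_left (card_image_le.trans ?_) _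
  rw [card_product, card_univ]
  exact Nat.mul_le_mul_right _ (Smooth.card_hit (k := k) (β := ι) s)

/-- **Random selections.** If every element of `X` is a value at an injective tuple of places and
some tuple of choices, then almost all selections `u` have many values. -/
theorem select {ι α β γ : Type} [Fintype ι] [DecidableEq ι] [Nonempty ι] [Fintype α] [Nonempty α]
    [Fintype γ] [Nonempty γ] [DecidableEq β] {k : ℕ}
    (Φ : (Fin (k + 1) → ι) → (Fin (k + 1) → α) → γ → β) (X : Finset β)
    (hX : ∀ x ∈ X, ∃ (σ : Fin (k + 1) → ι) (r : Fin (k + 1) → α) (b : γ), Function.Injective σ ∧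
      Φ σ r b = x) (y : ℝ) (hy : 0 ≤ y) (hyX : y ≤ X.card) :
    ((univ.filter fun u : ι → α => ((vals Φ u).card : ℝ) ≤
        y / (2 * (Fintype.card α : ℝ) ^ (k + 1))).card : ℝ) ≤
      Real.exp (-((y / (Fintype.card α : ℝ) ^ (k + 1)) ^ 2 /
        (8 * ((Fintype.card ι : ℝ) *
          ((k + 1) * (Fintype.card ι : ℝ) ^ k * Fintype.card γ) ^ 2)))) *
        (Fintype.card α : ℝ) ^ Fintype.card ι := by
  classical
  set M : ℝ := (Fintype.card α : ℝ) with hM
  set n : ℝ := (Fintype.card ι : ℝ) with hn
  set g : ℝ := (Fintype.card γ : ℝ) with hg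
  have hM0 : 0 < M := by rw [hM]; exact_mod_cast Fintype.card_pos
  have hn0 : 0 < n := by rw [hn]; exact_mod_cast Fintype.card_pos
  have hg0 : 0 < g := by rw [hg]; exact_mod_cast Fintype.card_pos
  set f : (ι → α) → ℝ := fun u => ((vals Φ u).card : ℝ) with hf
  -- the mean
  have hmean := Smooth.mean_ge (fun u : ι → α => vals Φ u) X (M ^ (k + 1))
    (M ^ Fintype.card ι) (by positivity) (by
      intro x hx
      obtain ⟨σ, r, b, hinj, rfl⟩ := hX x hx
      have h2 := Smooth.prescribed σ hinj r
      refine h2.trans (mul_le_mul_of_nonneg_left ?_ (by positivity))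
      have h3 : (univ.filter fun w : ι → α => ∀ i, w (σ i) = r i) ⊆
          univ.filter fun w : ι → α => Φ σ r b ∈ vals Φ w := by
        intro w hw
        have h4 := (mem_filter.1 hw).2
        refine mem_filter.2 ⟨mem_univ _, mem_image.2 ⟨(σ, b), mem_univ _, ?_⟩⟩
        show Φ σ _ b = Φ σ r b
        congr 1
        funext i
        exact h4 i
      exact_mod_cast card_le_card h3)
  set μ : ℝ := (∑ t, f t) / M ^ Fintype.card ι with hμ
  have hμy : y / M ^ (k + 1) ≤ μ := by
    rw [hμ, div_le_div_iff₀ (by positivity) (by positivity)]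
    have h1 : M ^ Fintype.card ι * y ≤ M ^ Fintype.card ι * X.card :=
      mul_le_mul_of_nonneg_left hyX (by positivity)
    have h2 := h1.trans hmean
    rw [mul_comm y, mul_comm (∑ t, f t)]
    exact h2
  have hdiff : ∀ (t : ι → α) (s : ι) (v : α),
      |f (Function.update t s v) - f t| ≤ (k + 1) * n ^ k * g := by
    refine Smooth.abs_of_two f (fun _ => (k + 1) * n ^ k * g) (fun t s v => ?_)
    have h1 := vals_update Φ t s v
    have h2 : ((vals Φ (Function.update t s v)).card : ℝ) ≤
      (vals Φ t).card + (k + 1) * (Fintype.card ι : ℝ) ^ k * Fintype.card γ := by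
      exact_mod_cast h1
    exact h2
  have hlow := BDiff.lower (fun _ : ι => (k + 1) * n ^ k * g) f (fun _ => by positivity) hdiff
    (n * ((k + 1) * n ^ k * g) ^ 2) (y / M ^ (k + 1) / 2) (by positivity) (by
      rw [sum_const, card_univ, nsmul_eq_mul]) (by positivity)
  have hsub : (univ.filter fun t : ι → α => f t ≤ y / (2 * M ^ (k + 1))) ⊆
      univ.filter fun t : ι → α => f t ≤ μ - y / M ^ (k + 1) / 2 := by
    intro t ht
    have h1 := (mem_filter.1 ht).2
    refine mem_filter.2 ⟨mem_univ _, h1.trans ?_⟩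
    have h2 : y / (2 * M ^ (k + 1)) = y / M ^ (k + 1) / 2 := by
      rw [div_div, mul_comm]
    rw [h2]
    linarith
  have hcard : ((univ.filter fun t : ι → α => f t ≤ y / (2 * M ^ (k + 1))).card : ℝ) ≤
      ((univ.filter fun t : ι → α => f t ≤ μ - y / M ^ (k + 1) / 2).card : ℝ) := by
    exact_mod_cast card_le_card hsub
  refine (hcard.trans hlow).trans (mul_le_mul_of_nonneg_right ?_ (by positivity))
  apply Real.exp_le_exp.mpr
  rw [neg_le_neg_iff]
  refine le_of_eq ?_
  field_simp
  ring

end Pool.Agent.V11208.MP
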