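import Mathlib
import Pool.Agent.V11208.MP.Sel
import Pool.Agent.V11208.MP.Big

/-!
# Sums of random multiplicative perturbations
-/

set_option autoImplicit false

open scoped Pointwise

namespace Pool.Agent.V11208.MP

open Finset

/-- the combinations with `k` elements of `S` and an element of `B` -/
def comb (k : ℕ) (S G B : Finset ℤ) (σ : Fin k → S) (r : Fin k → G) (b : B) : ℤ :=
  ∑ i, (σ i : ℤ) * (r i : ℤ) + b

theorem card_B_le {k : ℕ} {S G B : Finset ℤ} (hS : S.Nonempty) (u : S → G) :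
    B.card ≤ (vals (comb k S G B) u).card := by
  classical
  obtain ⟨s, hs⟩ := hS
  have h1 : (B.image fun b => (∑ _i : Fin k, s * (u ⟨s, hs⟩ : ℤ)) + b) ⊆
      vals (comb k S G B) u := by
    intro x hx
    obtain ⟨b, hb, rfl⟩ := mem_image.1 hx
    exact mem_image.2 ⟨(fun _ => ⟨s, hs⟩, ⟨b, hb⟩), mem_univ _, rfl⟩
  have h2 := card_le_card h1
  rwa [card_image_of_injective _ (add_right_injective _)] at h2

theorem main (k : ℕ) (ε : ℝ) (hε : 0 < ε) (hε1 : ε ≤ 1) :
    ∃ K c : ℝ, 0 < K ∧ 0 < c ∧ ∀ p : ℕ, p.Prime → ∀ S G B : Finset ℤ, S.Nonempty → B.Nonempty →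
      (0 : ℤ) ∉ G → (∀ g ∈ G, ∀ g' ∈ G, padicValInt p g = padicValInt p g' → g = g') →
      K * Real.log (2 * S.card) ≤ G.card →
      ((univ.filter fun u : S → G => ((vals (comb (k + 1) S G B) u).card : ℝ) <
        c * ((S.card : ℝ) ^ (k + 1) * B.card) ^ (1 - ε) / (G.card : ℝ) ^ (k + 1)).card : ℝ) ≤
      Real.exp (-(c * (S.card : ℝ) * ((S.card : ℝ) ^ (k + 1) * B.card) ^ (-(2 * ε)) /
        (G.card : ℝ) ^ (2 * (k + 1)))) * (G.card : ℝ) ^ S.card := by
  classical
  set q : ℝ := ((k + 1 : ℕ) : ℝ) with hq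
  have hq1 : 1 ≤ q := by rw [hq]; push_cast; linarith [Nat.cast_nonneg (α := ℝ) k]
  have hq0 : 0 < q := by linarith
  set e : ℝ := ε / q with he
  have he0 : 0 < e := by positivity
  have hqe : q * e = ε := by rw [he]; field_simp
  set δ : ℝ := ((2 * q) ^ (k + 1))⁻¹ with hδ
  have hδ0 : 0 < δ := by positivity
  have hδ1 : δ ≤ 1 := inv_le_one_of_one_le₀ (one_le_pow₀ (by linarith))
  set c : ℝ := min (δ / 2) (min (δ ^ 2 / (8 * q ^ 2)) ((q ^ (k + 1))⁻¹)) with hc
  have hcp : 0 < c := lt_min (by positivity) (lt_min (by positivity) (by positivity))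
  have hca : c ≤ δ / 2 := min_le_left _ _
  have hcb : c ≤ δ ^ 2 / (8 * q ^ 2) := (min_le_right _ _).trans (min_le_left _ _)
  have hcc : c ≤ (q ^ (k + 1))⁻¹ := (min_le_right _ _).trans (min_le_right _ _)
  refine ⟨2 / e * Real.exp (6 / e), c, by positivity, hcp,
    fun p hp S G B hS hB hG0 hinj hcard => ?_⟩
  have := Fact.mk hp
  set n : ℝ := (S.card : ℝ) with hn
  set b : ℝ := (B.card : ℝ) with hb
  set M : ℝ := (G.card : ℝ) with hM
  have hn1 : 1 ≤ n := by rw [hn]; exact_mod_cast hS.card_pos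
  have hb1 : 1 ≤ b := by rw [hb]; exact_mod_cast hB.card_pos
  have hn0 : 0 < n := by linarith
  have hb0 : 0 < b := by linarith
  have hlog : 0 < Real.log (2 * n) := Real.log_pos (by linarith)
  have hM0 : 0 < M := lt_of_lt_of_le (by positivity) hcard
  have hGne : G.Nonempty := by
    rw [← card_pos]
    have h1 := hM0
    rw [hM] at h1
    exact_mod_cast h1
  have hM1 : 1 ≤ M := by rw [hM]; exact_mod_cast hGne.card_pos
  set N : ℝ := n ^ (k + 1) * b with hN
  have hN1 : 1 ≤ N := one_le_mul_of_one_le_of_one_le (one_le_pow₀ hn1) hb1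
  have hN0 : 0 < N := by linarith
  by_cases hbig : k + 1 ≤ S.card
  · -- many elements
    set m : ℕ := S.card / (k + 1) with hm
    have hm1 : 1 ≤ m := Nat.div_pos hbig (by omega)
    have hmS : (k + 1) * m ≤ S.card := Nat.mul_div_le _ _
    have hm1r : (1 : ℝ) ≤ m := by exact_mod_cast hm1
    have hmn : (m : ℝ) ≤ n := by
      rw [hn]
      exact_mod_cast Nat.div_le_self _ _
    have hmge : n / (2 * q) ≤ m := by
      have h1 : S.card < (k + 1) * (m + 1) := by
        have := Nat.lt_mul_div_succ S.card (show 0 < k + 1 by omega)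
        simpa [hm] using this
      have h2 : n < q * (m + 1) := by rw [hn, hq]; exact_mod_cast h1
      rw [div_le_iff₀ (by positivity)]
      nlinarith
    obtain ⟨X, hX1, hX2⟩ := exists_big p e he0 G B hGne hB hG0 hinj m hm1 (by
      refine le_trans (mul_le_mul_of_nonneg_left ?_ (by positivity)) hcard
      exact Real.log_le_log (by linarith) (by linarith)) (k + 1) (by
        rw [← hq, hqe]; exact hε1) S hmS
    rw [← hq, hqe] at hX1
    have : Nonempty S := ⟨⟨hS.choose, hS.choose_spec⟩⟩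
    have : Nonempty G := ⟨⟨hGne.choose, hGne.choose_spec⟩⟩
    have : Nonempty B := ⟨⟨hB.choose, hB.choose_spec⟩⟩
    set y : ℝ := δ * N ^ (1 - ε) with hy
    have hyX : y ≤ X.card := by
      refine le_trans ?_ hX1
      have h1 : δ * N ≤ (m : ℝ) ^ (k + 1) * b := by
        have h2 : δ * N = (n / (2 * q)) ^ (k + 1) * b := by
          rw [hδ, hN, div_pow]
          field_simp
        rw [h2]
        exact mul_le_mul_of_nonneg_right (pow_le_pow_left₀ (by positivity) hmge _) hb0.le
      calc y = δ ^ (1 : ℝ) * N ^ (1 - ε) := by rw [hy, Real.rpow_one]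
        _ ≤ δ ^ (1 - ε) * N ^ (1 - ε) := by
            refine mul_le_mul_of_nonneg_right ?_ (by positivity)
            exact Real.rpow_le_rpow_of_exponent_ge hδ0 hδ1 (by linarith)
        _ = (δ * N) ^ (1 - ε) := by rw [Real.mul_rpow hδ0.le hN0.le]
        _ ≤ _ := Real.rpow_le_rpow (by positivity) h1 (by linarith)
    have hsel := select (comb (k + 1) S G B) X (by
      intro x hx
      obtain ⟨σ, r, b', h1, h2, h3, h4, h5⟩ := hX2 x hx
      refine ⟨fun i => ⟨σ i, h2 i⟩, fun i => ⟨r i, h3 i⟩, ⟨b', h4⟩, ?_, h5⟩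
      intro i j hij
      exact h1 (congrArg Subtype.val hij)) y (by positivity) hyX
    rw [Fintype.card_coe, Fintype.card_coe, Fintype.card_coe] at hsel
    have hsub : (univ.filter fun u : S → G => ((vals (comb (k + 1) S G B) u).card : ℝ) <
        c * N ^ (1 - ε) / M ^ (k + 1)) ⊆
        univ.filter fun u : S → G => ((vals (comb (k + 1) S G B) u).card : ℝ) ≤
          y / (2 * M ^ (k + 1)) := by
      intro u hu
      refine mem_filter.2 ⟨mem_univ _, ((mem_filter.1 hu).2.le).trans ?_⟩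
      rw [div_le_div_iff₀ (by positivity) (by positivity), hy]
      have h1 : c * N ^ (1 - ε) ≤ δ / 2 * N ^ (1 - ε) :=
        mul_le_mul_of_nonneg_right hca (by positivity)
      calc c * N ^ (1 - ε) * (2 * M ^ (k + 1)) ≤ δ / 2 * N ^ (1 - ε) * (2 * M ^ (k + 1)) :=
            mul_le_mul_of_nonneg_right h1 (by positivity)
        _ = δ * N ^ (1 - ε) * M ^ (k + 1) := by ring
    have hcd : ((univ.filter fun u : S → G => ((vals (comb (k + 1) S G B) u).card : ℝ) <
        c * N ^ (1 - ε) / M ^ (k + 1)).card : ℝ) ≤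
        ((univ.filter fun u : S → G => ((vals (comb (k + 1) S G B) u).card : ℝ) ≤
          y / (2 * M ^ (k + 1))).card : ℝ) := by exact_mod_cast card_le_card hsub
    refine (hcd.trans hsel).trans (mul_le_mul_of_nonneg_right ?_ (by positivity))
    apply Real.exp_le_exp.mpr
    rw [neg_le_neg_iff]
    have hy2 : y ^ 2 = δ ^ 2 * (N ^ 2 * N ^ (-(2 * ε))) := by
      rw [hy, mul_pow]
      congr 1
      rw [← Real.rpow_natCast (N ^ (1 - ε)) 2, ← Real.rpow_mul hN0.le, ← Real.rpow_natCast N 2,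
        ← Real.rpow_add hN0]
      congr 1
      push_cast
      ring
    have hrhs : (y / M ^ (k + 1)) ^ 2 / (8 * (n * (((k : ℝ) + 1) * n ^ k * b) ^ 2)) =
        δ ^ 2 / (8 * q ^ 2) * n * N ^ (-(2 * ε)) / M ^ (2 * (k + 1)) := by
      have hqk : ((k : ℝ) + 1) = q := by rw [hq]; push_cast; ring
      rw [div_pow, hy2, hqk]
      have h2 : N ^ 2 = n * n * (n ^ k * b) ^ 2 := by rw [hN]; ring
      have h3 : M ^ (2 * (k + 1)) = (M ^ (k + 1)) ^ 2 := by rw [← pow_mul]; ring_nf
      rw [h2, h3]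
      field_simp
    rw [hrhs]
    have h7 : 0 ≤ n * N ^ (-(2 * ε)) / M ^ (2 * (k + 1)) := by positivity
    have h8 := mul_le_mul_of_nonneg_right hcb h7
    calc c * n * N ^ (-(2 * ε)) / M ^ (2 * (k + 1)) =
          c * (n * N ^ (-(2 * ε)) / M ^ (2 * (k + 1))) := by ring
      _ ≤ δ ^ 2 / (8 * q ^ 2) * (n * N ^ (-(2 * ε)) / M ^ (2 * (k + 1))) := h8
      _ = _ := by ring
  · -- few elements
    push Not at hbig
    have hempty : (univ.filter fun u : S → G => ((vals (comb (k + 1) S G B) u).card : ℝ) <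
        c * N ^ (1 - ε) / M ^ (k + 1)) = ∅ := by
      rw [filter_eq_empty_iff]
      intro u _
      rw [not_lt]
      have h1 : (b : ℝ) ≤ ((vals (comb (k + 1) S G B) u).card : ℝ) := by
        rw [hb]; exact_mod_cast card_B_le hS u
      refine le_trans ?_ h1
      rw [div_le_iff₀ (by positivity)]
      have h2 : N ^ (1 - ε) ≤ N := by
        calc N ^ (1 - ε) ≤ N ^ (1 : ℝ) := Real.rpow_le_rpow_of_exponent_le hN1 (by linarith)
          _ = N := Real.rpow_one _
      have h3 : n ≤ q := by rw [hn, hq]; exact_mod_cast hbig.le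
      have h4 : n ^ (k + 1) ≤ q ^ (k + 1) := pow_le_pow_left₀ hn0.le h3 _
      calc c * N ^ (1 - ε) ≤ (q ^ (k + 1))⁻¹ * N := mul_le_mul hcc h2 (by positivity) (by positivity)
        _ = ((q ^ (k + 1))⁻¹ * n ^ (k + 1)) * b := by rw [hN]; ring
        _ ≤ 1 * b := by
            refine mul_le_mul_of_nonneg_right ?_ hb0.le
            rw [inv_mul_le_iff₀ (by positivity), mul_one]
            exact h4
        _ ≤ b * M ^ (k + 1) := by
            have := one_le_pow₀ (n := k + 1) hM1
            nlinarith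
    rw [hempty, card_empty, Nat.cast_zero]
    positivity

end Pool.Agent.V11208.MP
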