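import Mathlib
import Pool.Agent.V11208.MP.Main

/-!
# Sums of random multiplicative perturbations, consequences
-/

set_option autoImplicit false

open scoped Pointwise

namespace Pool.Agent.V11208.MP

open Finset

theorem log_count (K η : ℝ) (hK : 0 < K) (hη : 0 < η) (n : ℝ) (hn : 1 ≤ n) :
    (⌈K * Real.log (2 * n)⌉₊ : ℝ) ≤ (K * 2 ^ η / η + 1) * n ^ η := by
  have hlog : 0 < Real.log (2 * n) := Real.log_pos (by linarith)
  have h1 : (⌈K * Real.log (2 * n)⌉₊ : ℝ) ≤ K * Real.log (2 * n) + 1 :=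
    (Nat.ceil_lt_add_one (by positivity)).le
  have h2 : Real.log (2 * n) ≤ (2 * n) ^ η / η := Real.log_le_rpow_div (by positivity) hη
  have h3 : (2 * n) ^ η = 2 ^ η * n ^ η := Real.mul_rpow (by norm_num) (by linarith)
  have h4 : 1 ≤ n ^ η := Real.one_le_rpow hn hη.le
  have h5 : K * Real.log (2 * n) ≤ K * 2 ^ η / η * n ^ η := by
    calc K * Real.log (2 * n) ≤ K * ((2 * n) ^ η / η) := mul_le_mul_of_nonneg_left h2 hK.le
      _ = _ := by rw [h3]; ring
  nlinarith

/-- the general theorem with the logarithmic number of choices absorbed -/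
theorem logver (k : ℕ) (ε : ℝ) (hε : 0 < ε) (hε1 : ε ≤ 1) :
    ∃ K c : ℝ, 0 < K ∧ 0 < c ∧ ∀ p : ℕ, p.Prime → ∀ S G : Finset ℤ, S.Nonempty →
      (0 : ℤ) ∉ G → (∀ g ∈ G, ∀ g' ∈ G, padicValInt p g = padicValInt p g' → g = g') →
      G.card = ⌈K * Real.log (2 * S.card)⌉₊ →
      ((univ.filter fun u : S → G => ((vals (comb (k + 1) S G {0}) u).card : ℝ) <
        c * (S.card : ℝ) ^ (((k + 1 : ℕ) : ℝ) - ε)).card : ℝ) ≤
      Real.exp (-(c * (S.card : ℝ) ^ (1 - ε))) * (G.card : ℝ) ^ S.card := by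
  classical
  set q : ℝ := ((k + 1 : ℕ) : ℝ) with hq
  have hq1 : 1 ≤ q := by rw [hq]; push_cast; linarith [Nat.cast_nonneg (α := ℝ) k]
  have hq0 : 0 < q := by linarith
  set e : ℝ := ε / (4 * q) with he
  have he0 : 0 < e := by positivity
  have hqe : q * e = ε / 4 := by rw [he]; field_simp
  have he1 : e ≤ 1 := by
    rw [he, div_le_one (by positivity)]
    linarith
  obtain ⟨K, c, hK, hc, hmain⟩ := main k e he0 he1
  set C : ℝ := K * 2 ^ e / e + 1 with hC
  have hC1 : 1 ≤ C := by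
    rw [hC]
    have : 0 ≤ K * 2 ^ e / e := by positivity
    linarith
  have hC0 : 0 < C := by linarith
  set c' : ℝ := c / C ^ (2 * (k + 1)) with hc'
  have hc'0 : 0 < c' := by positivity
  refine ⟨K, c', hK, hc'0, fun p hp S G hS hG0 hinj hcard => ?_⟩
  set n : ℝ := (S.card : ℝ) with hn
  set M : ℝ := (G.card : ℝ) with hM
  have hn1 : 1 ≤ n := by rw [hn]; exact_mod_cast hS.card_pos
  have hn0 : 0 < n := by linarith
  have hlog : 0 < Real.log (2 * n) := Real.log_pos (by linarith)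
  have hMge : K * Real.log (2 * n) ≤ M := by
    rw [hM, hcard]
    exact Nat.le_ceil _
  have hMle : M ≤ C * n ^ e := by
    rw [hM, hcard]
    exact log_count K e hK he0 n hn1
  have hM0 : 0 < M := lt_of_lt_of_le (by positivity) hMge
  have h := hmain p hp S G {0} hS (singleton_nonempty 0) hG0 hinj hMge
  rw [card_singleton, Nat.cast_one, mul_one] at h
  have hpow : ∀ j : ℕ, M ^ j ≤ C ^ j * n ^ (e * j) := by
    intro j
    calc M ^ j ≤ (C * n ^ e) ^ j := pow_le_pow_left₀ hM0.le hMle j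
      _ = C ^ j * (n ^ e) ^ j := by rw [mul_pow]
      _ = _ := by rw [← Real.rpow_natCast (n ^ e) j, ← Real.rpow_mul hn0.le]
  have hnk : n ^ (k + 1) = n ^ q := by rw [hq, Real.rpow_natCast]
  have hsub : (univ.filter fun u : S → G => ((vals (comb (k + 1) S G {0}) u).card : ℝ) <
        c' * n ^ (q - ε)) ⊆
      univ.filter fun u : S → G => ((vals (comb (k + 1) S G {0}) u).card : ℝ) <
        c * (n ^ (k + 1)) ^ (1 - e) / M ^ (k + 1) := by
    intro u hu
    refine mem_filter.2 ⟨mem_univ _, ((mem_filter.1 hu).2).trans_le ?_⟩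
    rw [le_div_iff₀ (by positivity)]
    have h1 := hpow (k + 1)
    have h2 : (n ^ (k + 1)) ^ (1 - e) = n ^ (q - ε / 4) := by
      rw [hnk, ← Real.rpow_mul hn0.le]
      congr 1
      linarith
    have h3 : C ^ (k + 1) ≤ C ^ (2 * (k + 1)) := pow_le_pow_right₀ hC1 (by omega)
    have h4 : e * ((k + 1 : ℕ) : ℝ) = ε / 4 := by rw [← hq, mul_comm]; exact hqe
    rw [h4] at h1
    rw [h2]
    calc c' * n ^ (q - ε) * M ^ (k + 1)
        ≤ c' * n ^ (q - ε) * (C ^ (k + 1) * n ^ (ε / 4)) :=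
          mul_le_mul_of_nonneg_left h1 (by positivity)
      _ = (c' * C ^ (k + 1)) * n ^ (q - ε + ε / 4) := by
          rw [Real.rpow_add hn0]; ring
      _ ≤ c * n ^ (q - ε / 4) := by
          refine mul_le_mul ?_ ?_ (by positivity) hc.le
          · rw [hc', div_mul_eq_mul_div, div_le_iff₀ (by positivity)]
            exact mul_le_mul_of_nonneg_left h3 hc.le
          · exact Real.rpow_le_rpow_of_exponent_le hn1 (by linarith)
  have hcd : ((univ.filter fun u : S → G => ((vals (comb (k + 1) S G {0}) u).card : ℝ) <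
        c' * n ^ (q - ε)).card : ℝ) ≤
      ((univ.filter fun u : S → G => ((vals (comb (k + 1) S G {0}) u).card : ℝ) <
        c * (n ^ (k + 1)) ^ (1 - e) / M ^ (k + 1)).card : ℝ) := by
    exact_mod_cast card_le_card hsub
  refine (hcd.trans h).trans (mul_le_mul_of_nonneg_right ?_ (by positivity))
  apply Real.exp_le_exp.mpr
  rw [neg_le_neg_iff, le_div_iff₀ (by positivity)]
  have h1 := hpow (2 * (k + 1))
  have h4 : e * ((2 * (k + 1) : ℕ) : ℝ) = ε / 2 := by
    push_cast
    have h5 : q = (k : ℝ) + 1 := by rw [hq]; push_cast; ring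
    rw [← h5]
    linarith
  rw [h4] at h1
  have h2 : (n ^ (k + 1)) ^ (-(2 * e)) = n ^ (-(ε / 2)) := by
    rw [hnk, ← Real.rpow_mul hn0.le]
    congr 1
    linarith
  rw [h2]
  calc c' * n ^ (1 - ε) * M ^ (2 * (k + 1))
      ≤ c' * n ^ (1 - ε) * (C ^ (2 * (k + 1)) * n ^ (ε / 2)) :=
        mul_le_mul_of_nonneg_left h1 (by positivity)
    _ = (c' * C ^ (2 * (k + 1))) * n ^ (1 - ε + ε / 2) := by
        rw [Real.rpow_add hn0]; ring
    _ = c * n ^ (1 + -(ε / 2)) := by
        rw [hc']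
        congr 1
        · field_simp
        · congr 1
          ring
    _ = c * n * n ^ (-(ε / 2)) := by rw [Real.rpow_add hn0, Real.rpow_one]; ring
    _ ≤ _ := le_refl _

end Pool.Agent.V11208.MP
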